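import Pool.Agent.MP7489fb.Low4

set_option autoImplicit false

/-! Partial answer to Q1 of MP_7489fb_co: the exponential growth rate of `g(n, d)` is `2`. -/

namespace Pool.Agent.Results.MP_7489fb_co.GrowthRate

open Pool.Agent.MP7489fb Finset Filter Topology

theorem result :
    ∀ n : ℕ, 2 ≤ n → Tendsto (fun d : ℕ => Real.log (g n d) / d) atTop (𝓝 (Real.log 2)) := by
  intro n hn
  exact Low.growth n hn

end Pool.Agent.Results.MP_7489fb_co.GrowthRate
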